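import Pool.Agent.Q275.ClassTransMain

/-!
# MP_0fcb7f_al, Q1: products of two class transpositions have only finitely many finite orders

Proof.  Follow the orbit of an integer under the two involutions alternately and record the residue class
which is left at each step.  The integers with a given itinerary form a residue class, mapped affinely.
If an itinerary repeats immediately, then for a product of finite order the orbit is closed: otherwise
there are integers following the itinerary arbitrarily often.  A comparison of `p`-adic valuations, for a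
prime power separating the two classes of one transposition, restricts the pairs of consecutive classes.
A finite check shows that an itinerary of length 8 either contains such a repetition or violates the
restriction.  Hence all cycles of a product of finite order have length at most 8.
-/

set_option autoImplicit false

namespace Pool.Agent.Results.MP_0fcb7f_al.FinitelyManyOrders

/-- The residue class `r(m) = {r + k m : k ∈ ℤ}`. -/
def residueClass (r m : ℤ) : Set ℤ := {n | ∃ k : ℤ, n = r + k * m}

/-- `τ` is the class transposition which interchanges the disjoint residue classes `r₁(m₁)` and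
`r₂(m₂)`, where `0 ≤ r₁ < m₁` and `0 ≤ r₂ < m₂`. -/
def IsClassTransposition (τ : Equiv.Perm ℤ) : Prop :=
  ∃ r₁ m₁ r₂ m₂ : ℤ, 0 ≤ r₁ ∧ r₁ < m₁ ∧ 0 ≤ r₂ ∧ r₂ < m₂ ∧
    residueClass r₁ m₁ ∩ residueClass r₂ m₂ = ∅ ∧
    (∀ k : ℤ, τ (r₁ + k * m₁) = r₂ + k * m₂ ∧ τ (r₂ + k * m₂) = r₁ + k * m₁) ∧
    ∀ n, n ∉ residueClass r₁ m₁ → n ∉ residueClass r₂ m₂ → τ n = n

open Pool.Agent.Q275.CT in
theorem exists_dat {τ : Equiv.Perm ℤ} (h : IsClassTransposition τ) : ∃ A : Dat, A.τ = τ := by
  obtain ⟨r₁, m₁, r₂, m₂, h1, h2, h3, h4, h5, h6, h7⟩ := h
  have hmem : ∀ r m x : ℤ, m ∣ x - r → x ∈ residueClass r m := by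
    rintro r m x ⟨k, hk⟩
    exact ⟨k, by linarith⟩
  have hmem' : ∀ r m x : ℤ, x ∈ residueClass r m → m ∣ x - r := by
    rintro r m x ⟨k, hk⟩
    exact ⟨k, by rw [hk]; ring⟩
  refine ⟨{ r := fun b => if b then r₁ else r₂
            m := fun b => if b then m₁ else m₂
            τ := τ
            hm := ?_
            hdisj := ?_
            hmap := ?_
            hfix := ?_ }, rfl⟩
  · intro b
    cases b
    · simp; omega
    · simp; omega
  · intro x ha hb
    simp only [if_true] at ha
    simp only [Bool.false_eq_true, if_false] at hb
    have : x ∈ residueClass r₁ m₁ ∩ residueClass r₂ m₂ := ⟨hmem _ _ _ ha, hmem _ _ _ hb⟩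
    rw [h5] at this
    exact this
  · intro b k
    cases b
    · simpa using (h6 k).2
    · simpa using (h6 k).1
  · intro x hx
    apply h7
    · intro hc
      exact hx true (by simpa using hmem' _ _ _ hc)
    · intro hc
      exact hx false (by simpa using hmem' _ _ _ hc)

open Pool.Agent.Q275.CT in
/-- If the product of two class transpositions has finite order, then its order divides 840; in
particular only finitely many positive integers are orders of products of two class transpositions. -/
theorem result :
    (∀ τ τ' : Equiv.Perm ℤ, IsClassTransposition τ → IsClassTransposition τ' →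
      ∀ n : ℕ, 0 < n → orderOf (τ * τ') = n → n ∣ 840) ∧
    {n : ℕ | 0 < n ∧ ∃ τ τ' : Equiv.Perm ℤ, IsClassTransposition τ ∧ IsClassTransposition τ' ∧
      orderOf (τ * τ') = n}.Finite := by
  have key : ∀ τ τ' : Equiv.Perm ℤ, IsClassTransposition τ → IsClassTransposition τ' →
      ∀ n : ℕ, 0 < n → orderOf (τ * τ') = n → n ∣ 840 := by
    intro τ τ' h h' n hn ho
    obtain ⟨B, rfl⟩ := exists_dat h
    obtain ⟨A, rfl⟩ := exists_dat h'
    rw [← ho]
    exact order_dvd A B (by omega)
  refine ⟨key, (Set.finite_Iic 840).subset ?_⟩
  rintro n ⟨hn, τ, τ', h, h', ho⟩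
  exact Nat.le_of_dvd (by norm_num) (key τ τ' h h' n hn ho)

end Pool.Agent.Results.MP_0fcb7f_al.FinitelyManyOrders
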